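import Pool.Agent.helper64.NQ.Spec
import Pool.Agent.helper65.DI.D1
import Pool.Agent.helper33.DR.PAL

set_option autoImplicit false

namespace Pool.Agent.NQ

open Pool.Agent.helper58.DC Pool.Agent.DI Pool.Agent.DR

section PAPsec

variable {G E A : Type} [Group G] [Group E] [Group A] [Finite G]

theorem PAP_kC_le (hNM : NM_stmt) (hIF : IF_stmt) (hOM : OM_stmt) (X : Extension G E A) (p : ℕ)
    (M : Ideal (integralClosure ℤ ℂ)) (χ : G → ℂ) (d : ℤ)
    (Φ : Finset (Subgroup G) → (G → ℂ) → Prop)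
    (hΦ : ∀ (C : Finset (Subgroup G)) (ψ : G → ℂ) (g : G), Φ C ψ →
      Φ (chainMap (MulAut.conj g) C) (funMap (MulAut.conj g) ψ))
    (C : Finset (Subgroup G)) (g : G) :
    kCP X p M χ d Φ C ≤ kCP X p M χ d Φ (chainMap (MulAut.conj g) C) := by
  have hfin : Finite {ψ : G → ℂ // ψ ∈ IrrOn (nrm (chainMap (MulAut.conj g) C)) ∧
      Defect p (nrm (chainMap (MulAut.conj g) C)) ψ d ∧ Induces M ψ χ ∧
      (X.stab (chainMap (MulAut.conj g) C) ψ).map X.proj = ⊤ ∧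
      Φ (chainMap (MulAut.conj g) C) ψ} := by
    have h1 : (IrrOn (nrm (chainMap (MulAut.conj g) C))).Finite :=
      (hIF G (nrm (chainMap (MulAut.conj g) C))).1
    exact (h1.subset (fun ψ (hψ : ψ ∈ {ψ : G → ℂ | ψ ∈ IrrOn (nrm (chainMap (MulAut.conj g) C)) ∧
      Defect p (nrm (chainMap (MulAut.conj g) C)) ψ d ∧ Induces M ψ χ ∧
      (X.stab (chainMap (MulAut.conj g) C) ψ).map X.proj = ⊤ ∧
      Φ (chainMap (MulAut.conj g) C) ψ}) => hψ.1)).to_subtype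
  have hn : nrm (chainMap (MulAut.conj g) C) = (nrm C).map (MulAut.conj g).toMonoidHom :=
    (hNM G (MulAut.conj g) C).2.2.2.1
  unfold kCP
  refine Nat.card_le_card_of_injective (fun ψ => ⟨funMap (MulAut.conj g) ψ.1, ?_, ?_, ?_, ?_, ?_⟩) ?_
  · rw [hn]
    exact ((hIF G (nrm C)).2 ψ.1 ψ.2.1).2.2 _
  · obtain ⟨n, h1, h2⟩ := ψ.2.2.1
    refine ⟨n, ?_, ?_⟩
    · rw [← h1]
      simp [funMap]
    · rw [h2, hn]
      congr 2
      exact congrArg (padicValNat p) (Nat.card_congr ((nrm C).equivMapOfInjective _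
        (MulAut.conj g).injective).toEquiv)
  · intro y
    obtain ⟨a, ha, h⟩ := ψ.2.2.2.1 y
    refine ⟨a, ha, ?_⟩
    rw [← h]
    congr 1
    have h1 := hOM G (MulAut.conj g) ψ.1 (g⁻¹ * y * g)
    have h2 : (MulAut.conj g) (g⁻¹ * y * g) = y := by
      rw [MulAut.conj_apply]
      group
    rw [h2] at h1
    rw [h1]
    have h3 := D1_omega ψ.1 g⁻¹ y
    rwa [inv_inv] at h3
  · rw [D1_map_eq hNM]
    exact ψ.2.2.2.2.1
  · exact hΦ C ψ.1 g ψ.2.2.2.2.2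
  · intro ψ φ h
    have h1 : funMap (MulAut.conj g) ψ.1 = funMap (MulAut.conj g) φ.1 := congrArg Subtype.val h
    apply Subtype.ext
    rw [← D1_backF ψ.1 g, h1, D1_backF]

theorem PAP_kC (hNM : NM_stmt) (hIF : IF_stmt) (hOM : OM_stmt) (X : Extension G E A) (p : ℕ)
    (M : Ideal (integralClosure ℤ ℂ)) (χ : G → ℂ) (d : ℤ)
    (Φ : Finset (Subgroup G) → (G → ℂ) → Prop)
    (hΦ : ∀ (C : Finset (Subgroup G)) (ψ : G → ℂ) (g : G), Φ C ψ →
      Φ (chainMap (MulAut.conj g) C) (funMap (MulAut.conj g) ψ))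
    (C : Finset (Subgroup G)) (g : G) :
    kCP X p M χ d Φ (chainMap (MulAut.conj g) C) = kCP X p M χ d Φ C := by
  refine le_antisymm ?_ (PAP_kC_le hNM hIF hOM X p M χ d Φ hΦ C g)
  have h := PAP_kC_le hNM hIF hOM X p M χ d Φ hΦ (chainMap (MulAut.conj g) C) g⁻¹
  rwa [D1_back hNM] at h

end PAPsec

theorem PAP_D1 (hNM : NM_stmt) (hSN : SN_stmt) (hIF : IF_stmt) (hOM : OM_stmt)
    (G E A : Type) [Group G] [Group E] [Group A] [Finite G] (X : Extension G E A) (p : ℕ)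
    (M : Ideal (integralClosure ℤ ℂ)) (χ : G → ℂ) (d : ℤ)
    (Φ : Finset (Subgroup G) → (G → ℂ) → Prop)
    (hΦ : ∀ (C : Finset (Subgroup G)) (ψ : G → ℂ) (g : G), Φ C ψ →
      Φ (chainMap (MulAut.conj g) C) (funMap (MulAut.conj g) ψ)) :
    (Nat.card G : ℤ) * altSumP X p M χ d Φ =
      ∑ᶠ C ∈ {C : Finset (Subgroup G) | IsRadical p C},
      (-1) ^ (C.card + 1) * ((Nat.card (nrm C) : ℤ) * kCP X p M χ d Φ C) := by
  classical
  let F : {C : Finset (Subgroup G) // IsRadical p C} → ℤ := fun C =>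
    (-1) ^ (C.1.card + 1) * ((Nat.card (nrm C.1) : ℤ) * kCP X p M χ d Φ C.1)
  have e1 : ∑ᶠ C ∈ {C : Finset (Subgroup G) | IsRadical p C},
      (-1) ^ (C.card + 1) * ((Nat.card (nrm C) : ℤ) * kCP X p M χ d Φ C) = ∑ᶠ C, F C :=
    (finsum_set_coe_eq_finsum_mem {C : Finset (Subgroup G) | IsRadical p C}
      (f := fun C => (-1) ^ (C.card + 1) * ((Nat.card (nrm C) : ℤ) * kCP X p M χ d Φ C))).symm
  rw [e1]
  have : Fintype {C : Finset (Subgroup G) // IsRadical p C} := Fintype.ofFinite _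
  have : Fintype (Quot (chainRel (G := G) p)) := Fintype.ofFinite _
  rw [finsum_eq_sum_of_fintype, ← Fintype.sum_fiberwise (Quot.mk (chainRel (G := G) p)) F]
  unfold altSumP
  rw [finsum_eq_sum_of_fintype, Finset.mul_sum]
  refine Finset.sum_congr rfl fun c _ => ?_
  have e2 : ∀ C : {C : {C : Finset (Subgroup G) // IsRadical p C} //
      Quot.mk (chainRel (G := G) p) C = c}, F C.1 = F c.out := by
    rintro ⟨C, hC⟩
    obtain ⟨g, hg⟩ := Pool.Agent.helper48.DC.CL1_rel_of_mk hNM p c.out C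
      ((Quot.out_eq c).trans hC.symm)
    show (-1) ^ (C.1.card + 1) * ((Nat.card (nrm C.1) : ℤ) * kCP X p M χ d Φ C.1) =
      (-1) ^ (c.out.1.card + 1) * ((Nat.card (nrm c.out.1) : ℤ) * kCP X p M χ d Φ c.out.1)
    rw [← hg, PAP_kC hNM hIF hOM X p M χ d Φ hΦ, (hNM G (MulAut.conj g) c.out.1).2.2.1,
      (hNM G (MulAut.conj g) c.out.1).2.2.2.1]
    have h5 : Nat.card (Subgroup.map (MulAut.conj g).toMonoidHom (nrm c.out.1)) =
        Nat.card (nrm c.out.1) :=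
      (Nat.card_congr ((nrm c.out.1).equivMapOfInjective _ (MulAut.conj g).injective).toEquiv).symm
    rw [h5]
  rw [Finset.sum_congr rfl fun C _ => e2 C, Finset.sum_const, Finset.card_univ, nsmul_eq_mul]
  have e3 : Fintype.card {C : {C : Finset (Subgroup G) // IsRadical p C} //
      Quot.mk (chainRel (G := G) p) C = c} =
      ({D : Finset (Subgroup G) | ∃ g : G, chainMap (MulAut.conj g) c.out.1 = D}).ncard := by
    rw [← Nat.card_eq_fintype_card]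
    refine Nat.card_congr ⟨fun C => ⟨C.1.1, ?_⟩, fun D => ⟨⟨D.1, ?_⟩, ?_⟩, fun _ => rfl,
      fun _ => rfl⟩
    · exact Pool.Agent.helper48.DC.CL1_rel_of_mk hNM p c.out C.1
        ((Quot.out_eq c).trans C.2.symm)
    · obtain ⟨g, hg⟩ := D.2
      show IsRadical p D.1
      rw [← hg]
      exact (hNM G (MulAut.conj g) c.out.1).2.2.2.2.2.2 p c.out.2
    · obtain ⟨g, hg⟩ := D.2
      exact Eq.trans (Quot.sound (r := chainRel (G := G) p) (a := c.out) ⟨g, hg⟩).symm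
        (Quot.out_eq c)
  rw [e3]
  have e4 := D1_card hNM hSN c.out.1 c.out.2.chain
  have e5 : c.out.1.card ≠ 0 := by
    obtain ⟨P₀, hP, _⟩ := c.out.2.radical
    exact (Finset.card_pos.2 ⟨P₀, hP⟩).ne'
  obtain ⟨m, hm⟩ := Nat.exists_eq_succ_of_ne_zero e5
  show _ = _ * ((-1) ^ (c.out.1.card + 1) * ((Nat.card (nrm c.out.1) : ℤ) *
    kCP X p M χ d Φ c.out.1))
  rw [← e4, hm]
  push_cast
  simp only [Nat.succ_eq_add_one]
  ring

theorem PAP (hNM : NM_stmt) (hSN : SN_stmt) (hIF : IF_stmt) (hOM : OM_stmt)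
    (hB2 : Pool.Agent.DI.B2_stmt) : PAP_stmt := by
  classical
  intro G E A _ _ _ _ X p M χ hχ d Φ hΦ
  have hRfin : {C : Finset (Subgroup G) | IsRadical p C}.Finite := Set.toFinite _
  set R : Finset (Finset (Subgroup G)) := hRfin.toFinset with hR
  have hmem : ∀ C, C ∈ R ↔ IsRadical p C := fun C => by
    rw [hR, Set.Finite.mem_toFinset]; rfl
  set F : Finset (G → ℂ) := R.biUnion fun C => (hB2 G (nrm C)).1.toFinset with hF
  have hFmem : ∀ C ∈ R, ∀ ψ ∈ IrrOn (nrm C), ψ ∈ F := by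
    intro C hC ψ hψ
    rw [hF, Finset.mem_biUnion]
    exact ⟨C, hC, by rw [Set.Finite.mem_toFinset]; exact hψ⟩
  rw [PAP_D1 hNM hSN hIF hOM G E A X p M χ d Φ hΦ, finsum_mem_eq_finite_toFinset_sum _ hRfin, ← hR]
  have hS : ∑ᶠ x ∈ {x : Finset (Subgroup G) × (G → ℂ) | IsPair p M χ x ∧ dfc p x = d ∧
        Vx X x = ⊤ ∧ Φ x.1 x.2}, wt x =
      ∑ x ∈ (R ×ˢ F).filter (fun x => IsPair p M χ x ∧ dfc p x = d ∧ Vx X x = ⊤ ∧ Φ x.1 x.2),
        (-1) ^ (x.1.card + 1) * (Nat.card (nrm x.1) : ℤ) := by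
    rw [← finsum_mem_coe_finset]
    apply finsum_mem_congr
    · ext x
      rw [Finset.mem_coe, Finset.mem_filter, Finset.mem_product]
      constructor
      · intro hx
        have h1 : x.1 ∈ R := (hmem _).2 hx.1.1
        exact ⟨⟨h1, hFmem _ h1 _ hx.1.2.1⟩, hx⟩
      · exact fun hx => hx.2
    · intro x _
      rfl
  rw [hS, Finset.sum_filter, Finset.sum_product]
  refine Finset.sum_congr rfl fun C hC => ?_
  have hk : (kCP X p M χ d Φ C : ℤ) = ∑ ψ ∈ F, if IsPair p M χ (C, ψ) ∧ dfc p (C, ψ) = d ∧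
      Vx X (C, ψ) = ⊤ ∧ Φ (C, ψ).1 (C, ψ).2 then (1 : ℤ) else 0 := by
    rw [Finset.sum_boole, kCP]
    congr 1
    apply Nat.subtype_card
    intro ψ
    rw [Finset.mem_filter]
    constructor
    · rintro ⟨-, ⟨-, h1, h2⟩, h3, h4, h5⟩
      obtain ⟨n, -, hn, -⟩ := ((hB2 G (nrm C)).2 ψ h1).1
      exact ⟨h1, (PAL_dfc p C ψ d n hn).2 h3, h2, h4, h5⟩
    · rintro ⟨h1, h2, h3, h4, h5⟩
      obtain ⟨n, -, hn, -⟩ := ((hB2 G (nrm C)).2 ψ h1).1
      exact ⟨hFmem C hC ψ h1, ⟨(hmem C).1 hC, h1, h3⟩, (PAL_dfc p C ψ d n hn).1 h2, h4, h5⟩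
  rw [hk, Finset.mul_sum, Finset.mul_sum]
  refine Finset.sum_congr rfl fun ψ _ => ?_
  split_ifs
  · rw [mul_one]
  · rw [mul_zero, mul_zero]

end Pool.Agent.NQ
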