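import Pool.Agent.helper64.NQ.Spec

set_option autoImplicit false

namespace Pool.Agent.NQ

open Pool.Agent.helper58.DC Pool.Agent.DI Pool.Agent.DR

theorem CN0 (hB2 : Pool.Agent.DI.B2_stmt) : CN0_stmt := by
  intro Γ Q _ _ _ _ q S ψ hψ α hα
  obtain ⟨V, iV1, iV2, iV3, T, hT⟩ := hα
  obtain ⟨n, hn, hn1, _⟩ := ((hB2 Γ (S ⊓ q.ker)).2 ψ hψ).1
  have h1 : ψ 1 ≠ 0 := by
    rw [hn1]
    exact_mod_cast hn.ne'
  have hE : (1 : Module.End ℂ V) ≠ 0 := by
    intro h
    apply h1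
    rw [hT.tr 1 (Subgroup.one_mem _), hT.one, h, map_zero]
  have hTs : ∀ s ∈ S, T s ≠ 0 := by
    intro s hs h
    have h2 := hT.mul s hs s⁻¹ (S.inv_mem hs)
    rw [h, zero_mul, mul_inv_cancel, hT.one] at h2
    have h3 := smul_eq_zero.1 h2.symm
    rcases h3 with h4 | h4
    · exact (α (q s) (q s⁻¹)).ne_zero h4
    · exact hE h4
  have hcan : ∀ s ∈ S, ∀ a b : ℂˣ, (a : ℂ) • T s = (b : ℂ) • T s → a = b := by
    intro s hs a b h
    rw [← sub_eq_zero, ← sub_smul] at h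
    rcases smul_eq_zero.1 h with h4 | h4
    · exact Units.ext (sub_eq_zero.1 h4)
    · exact absurd h4 (hTs s hs)
  constructor
  · rintro a ⟨s, hs, rfl⟩ b ⟨s', hs', rfl⟩ c ⟨s'', hs'', rfl⟩
    have h2 := hT.mul s hs s' hs'
    have h3 := hT.mul (s * s') (S.mul_mem hs hs') s'' hs''
    have h4 := hT.mul s' hs' s'' hs''
    have h5 := hT.mul s hs (s' * s'') (S.mul_mem hs' hs'')
    have h6 : (T s * T s') * T s'' = T s * (T s' * T s'') := mul_assoc _ _ _
    rw [h2, h4, smul_mul_assoc, mul_smul_comm, h3, h5, smul_smul, smul_smul, ← mul_assoc s] at h6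
    have h7 := hcan (s * s' * s'') (S.mul_mem (S.mul_mem hs hs') hs'')
      (α (q s) (q s') * α (q (s * s')) (q s'')) (α (q s') (q s'') * α (q s) (q (s' * s'')))
      (by push_cast; exact h6)
    rw [map_mul, map_mul] at h7
    rw [h7, mul_comm]
  · rintro a ⟨s, hs, rfl⟩
    constructor
    · have h2 := hT.mul 1 S.one_mem s hs
      rw [hT.one, one_mul, one_mul, map_one] at h2
      exact (hcan s hs 1 _ (by rw [← h2]; simp)).symm
    · have h2 := hT.mul s hs 1 S.one_mem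
      rw [hT.one, mul_one, mul_one, map_one] at h2
      exact (hcan s hs 1 _ (by rw [← h2]; simp)).symm

end Pool.Agent.NQ
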